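import Pool.Agent.Y490.HS.Base

set_option autoImplicit false

namespace Pool.Agent.Y490.HS

open Finset

/-- neighbours of `x` in `S` -/
noncomputable def nb {n : ℕ} (G : SimpleGraph (Fin n)) (S : Finset (Fin n)) (x : Fin n) :
    Finset (Fin n) := by classical exact S.filter (fun y => G.Adj x y)

theorem mem_nb {n : ℕ} (G : SimpleGraph (Fin n)) (S : Finset (Fin n)) (x y : Fin n) :
    y ∈ nb G S x ↔ y ∈ S ∧ G.Adj x y := by
  classical
  simp [nb]

theorem ind_nb {n : ℕ} (G : SimpleGraph (Fin n)) (S : Finset (Fin n)) (x y : Fin n) :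
    ind (nb G S x) y = ind S y * ad G x y := by
  classical
  by_cases h1 : y ∈ S <;> by_cases h2 : G.Adj x y <;> simp [ind, ad, mem_nb, h1, h2]

theorem ind_nonneg {n : ℕ} (S : Finset (Fin n)) (x : Fin n) : 0 ≤ ind S x := by
  unfold ind; split_ifs <;> norm_num

theorem ind_le_one {n : ℕ} (S : Finset (Fin n)) (x : Fin n) : ind S x ≤ 1 := by
  unfold ind; split_ifs <;> norm_num

theorem sum_ind {n : ℕ} (S : Finset (Fin n)) : ∑ x, ind S x = (S.card : ℝ) := by
  classical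
  simp [ind]

/-- degree inside `S` -/
noncomputable def dg {n : ℕ} (G : SimpleGraph (Fin n)) (S : Finset (Fin n)) (y : Fin n) : ℝ :=
  ∑ z, ad G y z * ind S z

theorem B_ind {n : ℕ} (G : SimpleGraph (Fin n)) (S : Finset (Fin n)) :
    B G (ind S) (ind S) = ∑ y ∈ S, dg G S y := by
  classical
  unfold B dg
  rw [← sum_filter_add_sum_filter_not univ (fun i => i ∈ S)]
  have h1 : ∑ x with x ∉ S, ∑ j, ad G x j * ind S x * ind S j = 0 := by
    refine sum_eq_zero fun x hx => sum_eq_zero fun j _ => ?_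
    have : x ∉ S := (mem_filter.1 hx).2
    simp [ind, this]
  rw [h1, add_zero]
  have h2 : univ.filter (fun i => i ∈ S) = S := by ext i; simp
  rw [h2]
  refine sum_congr rfl fun i hi => sum_congr rfl fun j _ => ?_
  simp [ind, hi]

theorem sum_B_nb {n : ℕ} (G : SimpleGraph (Fin n)) (S : Finset (Fin n)) :
    ∑ x ∈ S, B G (ind (nb G S x)) (ind S) = ∑ y ∈ S, dg G S y ^ 2 := by
  classical
  have h1 : ∀ x, B G (ind (nb G S x)) (ind S) = ∑ y ∈ S, ad G x y * dg G S y := by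
    intro x
    unfold B dg
    simp only [ind_nb, mul_sum]
    rw [← sum_filter_add_sum_filter_not univ (fun i => i ∈ S)]
    have h1 : ∑ x_1 with x_1 ∉ S, ∑ j, ad G x_1 j * (ind S x_1 * ad G x x_1) * ind S j = 0 := by
      refine sum_eq_zero fun y hy => sum_eq_zero fun j _ => ?_
      have : y ∉ S := (mem_filter.1 hy).2
      simp [ind, this]
    rw [h1, add_zero]
    have h2 : univ.filter (fun i => i ∈ S) = S := by ext i; simp
    rw [h2]
    refine sum_congr rfl fun i hi => sum_congr rfl fun j _ => ?_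
    simp [ind, hi]; ring_nf
  rw [sum_congr rfl fun x _ => h1 x, sum_comm]
  refine sum_congr rfl fun y hy => ?_
  rw [← sum_mul, sq]
  congr 1
  unfold dg
  rw [← sum_filter_add_sum_filter_not univ (fun i => i ∈ S)]
  have h1 : ∑ x with x ∉ S, ad G y x * ind S x = 0 := by
    refine sum_eq_zero fun z hz => ?_
    have : z ∉ S := (mem_filter.1 hz).2
    simp [ind, this]
  rw [h1, add_zero]
  have h2 : univ.filter (fun i => i ∈ S) = S := by ext i; simp
  rw [h2]
  refine sum_congr rfl fun i hi => ?_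
  rw [ad_symm G i y]
  simp [ind, hi]

/-- one step: a vertex of `S` whose neighbourhood in `S` is still dense -/
theorem one_step {n : ℕ} (hn : 0 < n) (G : SimpleGraph (Fin n)) (δ γ : ℝ) (hγ : 0 < γ)
    (hpsd : ∀ h : Fin n → ℝ, (∀ i, |h i| ≤ 1) → -(δ * (n : ℝ) ^ 2) ≤ B G h h)
    (hδ : δ ≤ γ ^ 3 / 2) (S : Finset (Fin n))
    (hS : γ * (n : ℝ) ^ 2 ≤ B G (ind S) (ind S)) :
    ∃ x ∈ S, γ ^ 3 / 2 * (n : ℝ) ^ 2 ≤ B G (ind (nb G S x)) (ind (nb G S x)) := by
  classical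
  have hn0 : (0 : ℝ) < n := by exact_mod_cast hn
  set Q := B G (ind S) (ind S) with hQ
  have hQ0 : 0 < Q := lt_of_lt_of_le (by positivity) hS
  set s : ℝ := (S.card : ℝ) with hs
  have hSne : S.Nonempty := by
    by_contra h
    rw [not_nonempty_iff_eq_empty] at h
    rw [h] at hQ
    have : Q = 0 := by rw [hQ]; unfold B; simp [ind]
    linarith
  have hs0 : 0 < s := by rw [hs]; exact_mod_cast card_pos.2 hSne
  have hsn : s ≤ n := by
    rw [hs]
    have := card_le_univ S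
    rw [Fintype.card_fin] at this
    exact_mod_cast this
  -- Q ≤ s^2
  have hdg : ∀ y, dg G S y ≤ s := by
    intro y
    unfold dg
    rw [hs, ← sum_ind]
    refine sum_le_sum fun z _ => ?_
    calc ad G y z * ind S z ≤ 1 * ind S z :=
          mul_le_mul_of_nonneg_right (ad_le_one G y z) (ind_nonneg S z)
      _ = ind S z := one_mul _
  have hQs : Q ≤ s ^ 2 := by
    rw [hQ, B_ind]
    calc ∑ y ∈ S, dg G S y ≤ ∑ y ∈ S, s := sum_le_sum fun y _ => hdg y
      _ = s ^ 2 := by simp [hs]; ring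
  set lam : ℝ := Q / s ^ 2 with hlam
  have hlam0 : 0 ≤ lam := by positivity
  have hlam1 : lam ≤ 1 := by rw [hlam, div_le_one (by positivity)]; exact hQs
  have hkey : ∀ x, 2 * lam * B G (ind (nb G S x)) (ind S) - lam ^ 2 * Q - δ * (n : ℝ) ^ 2 ≤
      B G (ind (nb G S x)) (ind (nb G S x)) := by
    intro x
    have h1 := hpsd (fun i => ind (nb G S x) i + (-lam) * ind S i) ?_
    · rw [B_comb] at h1
      nlinarith
    · intro i
      have a1 := ind_nonneg (nb G S x) i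
      have a2 := ind_le_one (nb G S x) i
      have a3 := ind_nonneg S i
      have a4 := ind_le_one S i
      have a5 : lam * ind S i ≤ 1 * 1 := mul_le_mul hlam1 a4 a3 (by norm_num)
      have a6 : 0 ≤ lam * ind S i := mul_nonneg hlam0 a3
      rw [abs_le]
      constructor <;> linarith
  by_contra hcon
  push Not at hcon
  have h1 : ∑ x ∈ S, (2 * lam * B G (ind (nb G S x)) (ind S) - lam ^ 2 * Q - δ * (n : ℝ) ^ 2) <
      ∑ x ∈ S, (γ ^ 3 / 2 * (n : ℝ) ^ 2) :=
    sum_lt_sum_of_nonempty hSne fun x hx => lt_of_le_of_lt (hkey x) (hcon x hx)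
  rw [sum_sub_distrib, sum_sub_distrib, ← mul_sum, sum_B_nb] at h1
  simp only [sum_const, nsmul_eq_mul, ← hs] at h1
  -- Cauchy-Schwarz
  have h2 : Q ^ 2 ≤ s * ∑ y ∈ S, dg G S y ^ 2 := by
    rw [hQ, B_ind, hs]
    exact sq_sum_le_card_mul_sum_sq
  have h3 : Q ^ 2 / s ≤ ∑ y ∈ S, dg G S y ^ 2 := by
    rw [div_le_iff₀ hs0]; linarith
  have h4 : 2 * lam * (Q ^ 2 / s) ≤ 2 * lam * ∑ y ∈ S, dg G S y ^ 2 := by gcongr
  have h5 : 2 * lam * (Q ^ 2 / s) - s * (lam ^ 2 * Q) = Q ^ 3 / s ^ 3 := by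
    rw [hlam]; field_simp; ring
  have h6 : γ ^ 3 * (n : ℝ) ^ 2 * s ≤ Q ^ 3 / s ^ 3 := by
    rw [le_div_iff₀ (by positivity)]
    calc γ ^ 3 * (n : ℝ) ^ 2 * s * s ^ 3 = γ ^ 3 * (n : ℝ) ^ 2 * s ^ 4 := by ring
      _ ≤ γ ^ 3 * (n : ℝ) ^ 2 * (n : ℝ) ^ 4 := by gcongr
      _ = (γ * (n : ℝ) ^ 2) ^ 3 := by ring
      _ ≤ Q ^ 3 := by gcongr
  have h7 : s * (δ * (n : ℝ) ^ 2) ≤ s * (γ ^ 3 / 2 * (n : ℝ) ^ 2) := by gcongr
  nlinarith

/-- the threshold -/
noncomputable def dl : ℕ → ℝ → ℝ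
  | 0, _ => 1
  | k + 1, γ => min (γ ^ 3 / 2) (dl k (γ ^ 3 / 2))

theorem dl_pos : ∀ (k : ℕ) (γ : ℝ), 0 < γ → 0 < dl k γ := by
  intro k
  induction k with
  | zero => intro γ _; simp [dl]
  | succ k ih =>
    intro γ hγ
    simp only [dl]
    exact lt_min (by positivity) (ih _ (by positivity))

theorem clique {n : ℕ} (hn : 0 < n) (G : SimpleGraph (Fin n)) (δ : ℝ)
    (hpsd : ∀ h : Fin n → ℝ, (∀ i, |h i| ≤ 1) → -(δ * (n : ℝ) ^ 2) ≤ B G h h) :
    ∀ (k : ℕ) (γ : ℝ), 0 < γ → δ ≤ dl k γ → ∀ S : Finset (Fin n),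
      γ * (n : ℝ) ^ 2 ≤ B G (ind S) (ind S) →
      ∃ s : Finset (Fin n), s ⊆ S ∧ G.IsNClique (k + 1) s := by
  classical
  have hn0 : (0 : ℝ) < n := by exact_mod_cast hn
  intro k
  induction k with
  | zero =>
    intro γ hγ _ S hS
    have hSne : S.Nonempty := by
      by_contra h
      rw [not_nonempty_iff_eq_empty] at h
      have h2 : B G (ind S) (ind S) = 0 := by rw [h]; unfold B; simp [ind]
      have : 0 < γ * (n : ℝ) ^ 2 := by positivity
      linarith
    obtain ⟨x, hx⟩ := hSne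
    refine ⟨{x}, by simpa using hx, ?_⟩
    rw [SimpleGraph.isNClique_iff]
    simp
  | succ k ih =>
    intro γ hγ hδ S hS
    simp only [dl] at hδ
    obtain ⟨x, hx, hx2⟩ := one_step hn G δ γ hγ hpsd (hδ.trans (min_le_left _ _)) S hS
    obtain ⟨s, hs1, hs2⟩ := ih (γ ^ 3 / 2) (by positivity) (hδ.trans (min_le_right _ _)) _ hx2
    refine ⟨insert x s, ?_, ?_⟩
    · intro y hy
      rcases mem_insert.1 hy with rfl | hy
      · exact hx
      · exact ((mem_nb G S x y).1 (hs1 hy)).1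
    · exact hs2.insert fun y hy => ((mem_nb G S x y).1 (hs1 hy)).2

end Pool.Agent.Y490.HS
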