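import Pool.Agent.Y490.HS.Pip

set_option autoImplicit false

namespace Pool.Agent.Y490.HS

open Finset

theorem B_const_left {n : ℕ} (G : SimpleGraph (Fin n)) (a : ℝ) (g : Fin n → ℝ) :
    B G (fun _ => a) g = a * B G (fun _ => 1) g := by
  unfold B
  simp only [mul_sum]
  refine sum_congr rfl fun i _ => sum_congr rfl fun j _ => ?_
  ring

theorem B_const_const {n : ℕ} (G : SimpleGraph (Fin n)) (a : ℝ) :
    B G (fun _ => a) (fun _ => a) = a ^ 2 * B G (fun _ => 1) (fun _ => 1) := by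
  unfold B
  simp only [mul_sum]
  refine sum_congr rfl fun i _ => sum_congr rfl fun j _ => ?_
  ring

theorem B_le {n : ℕ} (G : SimpleGraph (Fin n)) (g : Fin n → ℝ) (hg : ∀ i, |g i| ≤ 1) :
    B G g g ≤ (n : ℝ) ^ 2 := by
  unfold B
  calc ∑ i, ∑ j, ad G i j * g i * g j ≤ ∑ i : Fin n, ∑ j : Fin n, (1 : ℝ) := by
        refine sum_le_sum fun i _ => sum_le_sum fun j _ => ?_
        have h1 : |ad G i j * g i * g j| ≤ 1 := by
          rw [abs_mul, abs_mul, abs_of_nonneg (ad_nonneg G i j)]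
          have h2 : ad G i j * |g i| ≤ 1 * 1 :=
            mul_le_mul (ad_le_one G i j) (hg i) (abs_nonneg _) (by norm_num)
          calc ad G i j * |g i| * |g j| ≤ (1 * 1) * 1 :=
                mul_le_mul h2 (hg j) (abs_nonneg _) (by norm_num)
            _ = 1 := by ring
        exact (le_abs_self _).trans h1
    _ = (n : ℝ) ^ 2 := by simp; ring

theorem psd {n : ℕ} (hn : 3 ≤ n) (G : SimpleGraph (Fin n)) (c η : ℝ) (hc : 0 < c) (hη : 0 < η)
    (hη1 : η ≤ 1 / 3)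
    (he : G.edgeSet.ncard = ⌊c * (n : ℝ) ^ 2⌋₊)
    (hW : ∀ W : Finset (Fin n), W.card = n / 2 →
          (1 - η ^ 2) * c * ((n : ℝ) / 2) ^ 2 ≤
            (({e : Sym2 (Fin n) | e ∈ G.edgeSet ∧ ∀ v ∈ e, v ∈ W}).ncard : ℝ))
    (h : Fin n → ℝ) (hh : ∀ i, |h i| ≤ 1) :
    -((6 * η * (1 + c / 2) + 18 * η ^ 2 * c) * (n : ℝ) ^ 2) ≤ B G h h := by
  classical
  have hn0 : (0 : ℝ) < n := by
    have : 0 < n := by omega
    exact_mod_cast this
  -- S1
  have S1 : ∀ f : Fin n → ℝ, (∀ i, 0 ≤ f i ∧ f i ≤ 1) → ∑ i, f i = ((n / 2 : ℕ) : ℝ) →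
      (1 - η ^ 2) * c * (n : ℝ) ^ 2 / 2 ≤ B G f f := by
    intro f hf hs
    obtain ⟨W, hW1, hW2⟩ := pipage G (n / 2) _ f le_rfl hf hs
    have h1 := hW W hW1
    have h2 := two_card_sub G W
    nlinarith
  set a : ℝ := ((n / 2 : ℕ) : ℝ) / n with ha
  have hm1 : ((n / 2 : ℕ) : ℝ) ≤ (n : ℝ) / 2 := by
    have : (n / 2) * 2 ≤ n := Nat.div_mul_le_self n 2
    have h2 : (((n / 2) * 2 : ℕ) : ℝ) ≤ n := by exact_mod_cast this
    push_cast at h2
    linarith
  have hm2 : (n : ℝ) / 3 ≤ ((n / 2 : ℕ) : ℝ) := by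
    have : n ≤ (n / 2) * 3 := by omega
    have h2 : (n : ℝ) ≤ (((n / 2) * 3 : ℕ) : ℝ) := by exact_mod_cast this
    push_cast at h2
    linarith
  have ha1 : a ≤ 1 / 2 := by
    rw [ha, div_le_iff₀ hn0]; linarith
  have ha2 : 1 / 3 ≤ a := by
    rw [ha, le_div_iff₀ hn0]; linarith
  have han : (n : ℝ) * a = ((n / 2 : ℕ) : ℝ) := by
    rw [ha]; field_simp
  have hE : B G (fun _ => 1) (fun _ => 1) = 2 * (G.edgeSet.ncard : ℝ) := by
    rw [two_card]
    unfold B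
    simp
  have hE0 : 0 ≤ B G (fun _ => 1) (fun _ => 1) := by rw [hE]; positivity
  have hE1 : B G (fun _ => 1) (fun _ => 1) ≤ 2 * (c * (n : ℝ) ^ 2) := by
    rw [hE, he]
    have := Nat.floor_le (a := c * (n : ℝ) ^ 2) (by positivity)
    linarith
  -- S2
  have S2 : ∀ g : Fin n → ℝ, (∀ i, |g i| ≤ 1) → ∑ i, g i = 0 → ∀ t : ℝ, |t| ≤ 1 / 3 →
      -(η ^ 2 * c * (n : ℝ) ^ 2 / 2) ≤ 2 * t * a * B G (fun _ => 1) g + t ^ 2 * B G g g := by
    intro g hg hg0 t ht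
    have h1 := S1 (fun i => a + t * g i) ?_ ?_
    · rw [B_comb G (fun _ => a) g t, B_const_const G a, B_const_left G a g] at h1
      have h2 : a ^ 2 * B G (fun _ => 1) (fun _ => 1) ≤ (1 / 2) ^ 2 * (2 * (c * (n : ℝ) ^ 2)) := by
        have h3 : a ^ 2 ≤ (1 / 2) ^ 2 := by
          apply pow_le_pow_left₀ (by linarith) ha1
        exact mul_le_mul h3 hE1 hE0 (by norm_num)
      nlinarith
    · intro i
      have h2 : |t * g i| ≤ 1 / 3 := by
        rw [abs_mul]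
        calc |t| * |g i| ≤ (1 / 3) * 1 := mul_le_mul ht (hg i) (abs_nonneg _) (by norm_num)
          _ = 1 / 3 := by ring
      rw [abs_le] at h2
      constructor <;> linarith [h2.1, h2.2]
    · rw [sum_add_distrib, ← mul_sum, hg0]
      simp [han]
  -- S3
  set μ : ℝ := (∑ i, h i) / n with hμ
  have hμ1 : |μ| ≤ 1 := by
    rw [hμ, abs_div, abs_of_pos hn0, div_le_one hn0]
    calc |∑ i, h i| ≤ ∑ i, |h i| := abs_sum_le_sum_abs _ _
      _ ≤ ∑ i : Fin n, (1 : ℝ) := sum_le_sum fun i _ => hh i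
      _ = n := by simp
  set g : Fin n → ℝ := fun i => (h i - μ) / 2 with hg
  have hg1 : ∀ i, |g i| ≤ 1 := by
    intro i
    have h1 := abs_le.1 (hh i)
    have h2 := abs_le.1 hμ1
    have h3 : g i = (h i - μ) / 2 := rfl
    rw [h3, abs_le]
    constructor <;> linarith [h1.1, h1.2, h2.1, h2.2]
  have hg0 : ∑ i, g i = 0 := by
    rw [hg]
    simp only
    rw [← sum_div, sum_sub_distrib]
    simp only [sum_const, card_univ, Fintype.card_fin, nsmul_eq_mul]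
    rw [hμ]
    field_simp
    ring
  set L := B G (fun _ => 1) g with hL
  set Qg := B G g g with hQ
  have hQ1 : Qg ≤ (n : ℝ) ^ 2 := B_le G g hg1
  have e1 := S2 g hg1 hg0 (1 / 3) (by norm_num)
  have e2 := S2 g hg1 hg0 (-(1 / 3)) (by rw [abs_neg]; norm_num)
  have e3 := S2 g hg1 hg0 η (by rw [abs_of_pos hη]; exact hη1)
  have e4 := S2 g hg1 hg0 (-η) (by rw [abs_neg, abs_of_pos hη]; exact hη1)
  have hQ2 : -(9 / 2 * (η ^ 2 * c * (n : ℝ) ^ 2)) ≤ Qg := by nlinarith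
  have hL1 : a * |L| ≤ η / 2 * (1 + c / 2) * (n : ℝ) ^ 2 := by
    have h1 : 2 * η * (a * |L|) ≤ 2 * η * (η / 2 * (1 + c / 2) * (n : ℝ) ^ 2) := by
      rcases abs_cases L with ⟨h1, _⟩ | ⟨h1, _⟩
      · rw [h1]
        have : η ^ 2 * Qg ≤ η ^ 2 * (n : ℝ) ^ 2 := by gcongr
        nlinarith
      · rw [h1]
        have : η ^ 2 * Qg ≤ η ^ 2 * (n : ℝ) ^ 2 := by gcongr
        nlinarith
    exact le_of_mul_le_mul_left h1 (by positivity)
  have hL2 : |L| ≤ 3 / 2 * η * (1 + c / 2) * (n : ℝ) ^ 2 := by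
    have h1 : 1 / 3 * |L| ≤ a * |L| := by gcongr
    nlinarith
  have hfin : B G h h = μ ^ 2 * B G (fun _ => 1) (fun _ => 1) + 4 * μ * L + 4 * Qg := by
    have h1 : h = fun i => (fun _ => μ) i + 2 * g i := by
      funext i; simp only [hg]; ring
    rw [h1, B_comb G (fun _ => μ) g 2, B_const_const G μ, B_const_left G μ g]
    ring
  rw [hfin]
  have h1 : 0 ≤ μ ^ 2 * B G (fun _ => 1) (fun _ => 1) := by positivity
  have h2 : -|L| ≤ μ * L := by
    have h3 : |μ * L| ≤ |L| := by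
      rw [abs_mul]
      calc |μ| * |L| ≤ 1 * |L| := by gcongr
        _ = |L| := one_mul _
    exact (abs_le.1 h3).1.trans' (by linarith)
  nlinarith

end Pool.Agent.Y490.HS
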