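import Mathlib

set_option autoImplicit false

namespace Pool.Agent.Y490.HS

open Finset

/-- adjacency entry -/
noncomputable def ad {n : ℕ} (G : SimpleGraph (Fin n)) (i j : Fin n) : ℝ :=
  by classical exact if G.Adj i j then 1 else 0

theorem ad_symm {n : ℕ} (G : SimpleGraph (Fin n)) (i j : Fin n) : ad G i j = ad G j i := by
  classical
  simp only [ad, G.adj_comm]

theorem ad_self {n : ℕ} (G : SimpleGraph (Fin n)) (i : Fin n) : ad G i i = 0 := by
  classical
  simp [ad]

theorem ad_nonneg {n : ℕ} (G : SimpleGraph (Fin n)) (i j : Fin n) : 0 ≤ ad G i j := by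
  classical
  unfold ad; split_ifs <;> norm_num

theorem ad_le_one {n : ℕ} (G : SimpleGraph (Fin n)) (i j : Fin n) : ad G i j ≤ 1 := by
  classical
  unfold ad; split_ifs <;> norm_num

/-- bilinear form -/
noncomputable def B {n : ℕ} (G : SimpleGraph (Fin n)) (f g : Fin n → ℝ) : ℝ :=
  ∑ i, ∑ j, ad G i j * f i * g j

theorem B_symm {n : ℕ} (G : SimpleGraph (Fin n)) (f g : Fin n → ℝ) : B G f g = B G g f := by
  unfold B
  rw [Finset.sum_comm]
  refine sum_congr rfl fun i _ => sum_congr rfl fun j _ => ?_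
  rw [ad_symm G j i]; ring

theorem B_comb {n : ℕ} (G : SimpleGraph (Fin n)) (f g : Fin n → ℝ) (t : ℝ) :
    B G (fun i => f i + t * g i) (fun i => f i + t * g i) =
      B G f f + 2 * t * B G f g + t ^ 2 * B G g g := by
  have h1 : B G (fun i => f i + t * g i) (fun i => f i + t * g i) =
      B G f f + t * B G f g + t * B G g f + t ^ 2 * B G g g := by
    unfold B
    simp only [mul_sum, ← sum_add_distrib]
    refine sum_congr rfl fun i _ => sum_congr rfl fun j _ => ?_
    ring
  rw [h1, B_symm G g f]; ring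

theorem two_card {n : ℕ} (H : SimpleGraph (Fin n)) :
    2 * (H.edgeSet.ncard : ℝ) = ∑ i, ∑ j, ad H i j := by
  classical
  have h1 : H.edgeSet.ncard = H.edgeFinset.card := by
    rw [← SimpleGraph.coe_edgeFinset, Set.ncard_coe_finset]
  have h2 := H.sum_degrees_eq_twice_card_edges
  have h3 : ∀ i, ((H.degree i : ℕ) : ℝ) = ∑ j, ad H i j := by
    intro i
    rw [← SimpleGraph.card_neighborFinset_eq_degree]
    simp only [ad]
    rw [Finset.sum_boole]
    congr 2
    ext j; simp
  rw [h1]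
  have h4 : ((∑ v, H.degree v : ℕ) : ℝ) = ((2 * H.edgeFinset.card : ℕ) : ℝ) := by exact_mod_cast h2
  push_cast at h4
  rw [← h4]
  exact sum_congr rfl fun i _ => h3 i

/-- indicator -/
noncomputable def ind {n : ℕ} (W : Finset (Fin n)) (i : Fin n) : ℝ := if i ∈ W then 1 else 0

theorem two_card_sub {n : ℕ} (G : SimpleGraph (Fin n)) (W : Finset (Fin n)) :
    2 * (({e : Sym2 (Fin n) | e ∈ G.edgeSet ∧ ∀ v ∈ e, v ∈ W}).ncard : ℝ) =
      B G (ind W) (ind W) := by
  classical
  set H : SimpleGraph (Fin n) :=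
    { Adj := fun i j => G.Adj i j ∧ i ∈ W ∧ j ∈ W
      symm := ⟨fun i j h => ⟨h.1.symm, h.2.2, h.2.1⟩⟩
      loopless := ⟨fun i h => G.loopless.irrefl i h.1⟩ } with hH
  have h1 : {e : Sym2 (Fin n) | e ∈ G.edgeSet ∧ ∀ v ∈ e, v ∈ W} = H.edgeSet := by
    ext e
    induction e using Sym2.ind with
    | _ x y =>
      simp [hH, SimpleGraph.mem_edgeSet]
  rw [h1, two_card]
  unfold B
  refine sum_congr rfl fun i _ => sum_congr rfl fun j _ => ?_
  simp only [ad, ind, hH]
  by_cases hi : i ∈ W <;> by_cases hj : j ∈ W <;> simp [hi, hj]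

end Pool.Agent.Y490.HS
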