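import Pool.Agent.Y490.HS.Base

set_option autoImplicit false

namespace Pool.Agent.Y490.HS

open Finset

/-- the fractional coordinates -/
noncomputable def frac {n : ℕ} (f : Fin n → ℝ) : Finset (Fin n) :=
  by classical exact univ.filter (fun i => f i ≠ 0 ∧ f i ≠ 1)

theorem mem_frac {n : ℕ} (f : Fin n → ℝ) (i : Fin n) : i ∈ frac f ↔ f i ≠ 0 ∧ f i ≠ 1 := by
  classical
  simp [frac]

/-- direction `e_i - e_j` -/
noncomputable def dir {n : ℕ} (i j : Fin n) (k : Fin n) : ℝ :=
  (if k = i then 1 else 0) - (if k = j then 1 else 0)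

theorem B_dir {n : ℕ} (G : SimpleGraph (Fin n)) (i j : Fin n) :
    B G (dir i j) (dir i j) = - 2 * ad G i j := by
  classical
  unfold B dir
  have h : ∀ a b : Fin n, ad G a b * ((if a = i then (1:ℝ) else 0) - (if a = j then 1 else 0)) *
      ((if b = i then 1 else 0) - (if b = j then 1 else 0)) =
      (if a = i then (if b = i then ad G a b else 0) else 0)
      - (if a = i then (if b = j then ad G a b else 0) else 0)
      - (if a = j then (if b = i then ad G a b else 0) else 0)
      + (if a = j then (if b = j then ad G a b else 0) else 0) := by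
    intro a b
    split_ifs <;> simp
  simp only [h, sum_add_distrib, sum_sub_distrib]
  simp only [Finset.sum_ite_eq', Finset.sum_ite_irrel, mem_univ, if_true, Finset.sum_const_zero]
  rw [ad_self, ad_self, ad_symm G j i]
  ring

theorem B_dir_nonpos {n : ℕ} (G : SimpleGraph (Fin n)) (i j : Fin n) :
    B G (dir i j) (dir i j) ≤ 0 := by
  rw [B_dir]
  have := ad_nonneg G i j
  linarith

theorem B_dir_swap {n : ℕ} (G : SimpleGraph (Fin n)) (f : Fin n → ℝ) (i j : Fin n) :
    B G f (dir j i) = - B G f (dir i j) := by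
  unfold B
  rw [← sum_neg_distrib]
  refine sum_congr rfl fun a _ => ?_
  rw [← sum_neg_distrib]
  refine sum_congr rfl fun b _ => ?_
  simp only [dir]; ring

theorem sum_dir {n : ℕ} (i j : Fin n) : ∑ k, dir i j k = 0 := by
  classical
  simp [dir, sum_sub_distrib]

theorem step {n : ℕ} (G : SimpleGraph (Fin n)) (f : Fin n → ℝ) (hf : ∀ i, 0 ≤ f i ∧ f i ≤ 1)
    (i j : Fin n) (hij : i ≠ j) (hi : i ∈ frac f) (hj : j ∈ frac f)
    (hB : B G f (dir i j) ≤ 0) :
    ∃ f' : Fin n → ℝ, (∀ i, 0 ≤ f' i ∧ f' i ≤ 1) ∧ ∑ i, f' i = ∑ i, f i ∧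
      B G f' f' ≤ B G f f ∧ (frac f').card < (frac f).card := by
  classical
  rw [mem_frac] at hi hj
  have hi0 : 0 < f i := lt_of_le_of_ne (hf i).1 (Ne.symm hi.1)
  have hi1 : f i < 1 := lt_of_le_of_ne (hf i).2 hi.2
  have hj0 : 0 < f j := lt_of_le_of_ne (hf j).1 (Ne.symm hj.1)
  have hj1 : f j < 1 := lt_of_le_of_ne (hf j).2 hj.2
  set t : ℝ := min (1 - f i) (f j) with ht
  have ht0 : 0 < t := by
    rw [ht]; exact lt_min (by linarith) hj0
  have ht1 : t ≤ 1 - f i := min_le_left _ _
  have ht2 : t ≤ f j := min_le_right _ _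
  refine ⟨fun k => f k + t * dir i j k, ?_, ?_, ?_, ?_⟩
  · intro k
    simp only [dir]
    by_cases h1 : k = i
    · subst h1
      simp only [if_true, if_neg hij]
      constructor <;> linarith
    · by_cases h2 : k = j
      · subst h2
        simp only [if_true, if_neg h1]
        constructor <;> linarith
      · simp only [if_neg h1, if_neg h2]
        have := hf k
        constructor <;> linarith
  · rw [sum_add_distrib, ← mul_sum, sum_dir]; ring
  · rw [B_comb]
    have h1 := B_dir_nonpos G i j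
    nlinarith [mul_nonneg ht0.le (sub_nonneg.2 hB), mul_nonneg (sq_nonneg t) (sub_nonneg.2 h1)]
  · have hsub : frac (fun k => f k + t * dir i j k) ⊆ frac f := by
      intro k hk
      rw [mem_frac] at hk ⊢
      simp only [dir] at hk
      by_cases h1 : k = i
      · subst h1; exact hi
      · by_cases h2 : k = j
        · subst h2; exact hj
        · simpa [h1, h2] using hk
    refine card_lt_card ⟨hsub, fun hcon => ?_⟩
    rcases min_choice (1 - f i) (f j) with h | h
    · have h1 := hcon ((mem_frac f i).2 hi)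
      rw [mem_frac] at h1
      apply h1.2
      simp only [dir, if_true, if_neg hij]
      rw [ht, h]; ring
    · have h1 := hcon ((mem_frac f j).2 hj)
      rw [mem_frac] at h1
      apply h1.1
      simp only [dir, if_true, if_neg hij.symm]
      rw [ht, h]; ring

theorem other {n : ℕ} (f : Fin n → ℝ) (hf : ∀ i, 0 ≤ f i ∧ f i ≤ 1) (m : ℕ)
    (hs : ∑ i, f i = m) (i : Fin n) (hi : i ∈ frac f) : ∃ j, i ≠ j ∧ j ∈ frac f := by
  classical
  by_contra hcon
  push Not at hcon
  have h1 : ∀ j ∈ univ.erase i, f j = ((if f j = 1 then 1 else 0 : ℕ) : ℝ) := by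
    intro j hj
    have h2 := hcon j (ne_of_mem_erase hj).symm
    rw [mem_frac] at h2
    by_cases h3 : f j = 1
    · simp [h3]
    · have h4 : f j = 0 := by
        by_contra h5; exact h2 ⟨h5, h3⟩
      simp [h4]
  rw [← add_sum_erase univ f (mem_univ i), sum_congr rfl h1, ← Nat.cast_sum] at hs
  rw [mem_frac] at hi
  have hi0 : 0 < f i := lt_of_le_of_ne (hf i).1 (Ne.symm hi.1)
  have hi1 : f i < 1 := lt_of_le_of_ne (hf i).2 hi.2
  set p : ℕ := ∑ j ∈ univ.erase i, (if f j = 1 then 1 else 0) with hp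
  have h5 : (p : ℝ) < m := by linarith
  have h6 : (m : ℝ) < p + 1 := by linarith
  have h7 : p < m := by exact_mod_cast h5
  have h8 : m < p + 1 := by exact_mod_cast h6
  omega

theorem pipage {n : ℕ} (G : SimpleGraph (Fin n)) (m : ℕ) : ∀ (N : ℕ) (f : Fin n → ℝ),
    (frac f).card ≤ N → (∀ i, 0 ≤ f i ∧ f i ≤ 1) → ∑ i, f i = m →
    ∃ W : Finset (Fin n), W.card = m ∧ B G (ind W) (ind W) ≤ B G f f := by
  classical
  intro N
  induction N with
  | zero =>
    intro f h0 hf hs
    have h1 : frac f = ∅ := card_eq_zero.1 (le_antisymm h0 (Nat.zero_le _))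
    have h2 : ∀ i, f i = ind (univ.filter fun i => f i = 1) i := by
      intro i
      have h3 : i ∉ frac f := by rw [h1]; simp
      rw [mem_frac] at h3
      by_cases h4 : f i = 1
      · simp [ind, h4]
      · have h5 : f i = 0 := by
          by_contra h5; exact h3 ⟨h5, h4⟩
        simp [ind, h5]
    refine ⟨univ.filter fun i => f i = 1, ?_, le_of_eq ?_⟩
    · have h3 : (∑ i, f i) = ((univ.filter fun i => f i = 1).card : ℝ) := by
        rw [sum_congr rfl fun i _ => h2 i]
        simp [ind]
      rw [hs] at h3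
      exact_mod_cast h3.symm
    · have h3 : f = ind (univ.filter fun i => f i = 1) := funext h2
      rw [← h3]
  | succ N ih =>
    intro f h0 hf hs
    by_cases hc : (frac f).card ≤ N
    · exact ih f hc hf hs
    · have hne : (frac f).Nonempty := by
        rw [← card_pos]; omega
      obtain ⟨i, hi⟩ := hne
      obtain ⟨j, hij, hj⟩ := other f hf m hs i hi
      rcases le_total (B G f (dir i j)) 0 with hB | hB
      · obtain ⟨f', h1, h2, h3, h4⟩ := step G f hf i j hij hi hj hB
        obtain ⟨W, hW, hW'⟩ := ih f' (by omega) h1 (by rw [h2, hs])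
        exact ⟨W, hW, hW'.trans h3⟩
      · have hB' : B G f (dir j i) ≤ 0 := by rw [B_dir_swap]; linarith
        obtain ⟨f', h1, h2, h3, h4⟩ := step G f hf j i hij.symm hj hi hB'
        obtain ⟨W, hW, hW'⟩ := ih f' (by omega) h1 (by rw [h2, hs])
        exact ⟨W, hW, hW'.trans h3⟩

end Pool.Agent.Y490.HS
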